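import Mathlib

set_option autoImplicit false

open Finset Matrix Equiv

namespace Pool.Agent.V7H44.Old.AnyWeightsH44

/-! ### Coefficients of a polynomial multiple of a weighted minor -/

section Coeff

variable {A : Type*} [CommRing A] {ι : Type*} [Fintype ι] [DecidableEq ι]

/-- The exponent of the monomial `∏ a, x_{a, σ a}`. -/
noncomputable def permMon (σ : Perm ι) : ι × ι →₀ ℕ := ∑ a, Finsupp.single (a, σ a) 1

theorem permMon_apply (σ : Perm ι) (a b : ι) :
    permMon σ (a, b) = if σ a = b then 1 else 0 := by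
  simp only [permMon, Finsupp.finsetSum_apply, Finsupp.single_apply, Prod.mk.injEq]
  rw [Finset.sum_eq_single a]
  · simp
  · intro c _ hc
    simp [hc]
  · simp

variable {κ : Type*} [Fintype κ] [DecidableEq κ]

/-- The zero-one matrix recording which rows are sent to which columns. -/
def pat (A : Type*) [CommRing A] (f g : κ ↪ ι) (σ : Perm ι) : Matrix κ κ A :=
  Matrix.of fun p q => if σ (f p) = g q then 1 else 0

/-- The weighted minor. -/
noncomputable def minor (W : Matrix ι ι A) (f g : κ ↪ ι) : MvPolynomial (ι × ι) A :=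
  ((Matrix.of fun a b : ι =>
    (MvPolynomial.C (W a b) * MvPolynomial.X (a, b) : MvPolynomial (ι × ι) A)).submatrix f g).det

theorem coeff_mul_minor (W : Matrix ι ι A) (f g : κ ↪ ι) (Q : MvPolynomial (ι × ι) A)
    (σ : Perm ι) :
    (Q * minor W f g).coeff (permMon σ) =
      Q.coeff (∑ a with a ∉ Set.range f, Finsupp.single (a, σ a) 1) *
        ((∏ p, W (f p) (σ (f p))) * (pat A f g σ).det) := by
  classical
  rw [minor, det_apply, det_apply, Finset.mul_sum, MvPolynomial.coeff_sum, Finset.mul_sum,
    Finset.mul_sum]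
  refine Finset.sum_congr rfl fun τ _ => ?_
  rw [mul_smul_comm, mul_smul_comm, mul_smul_comm]
  have hcs : ∀ (z : ℤˣ) (p : MvPolynomial (ι × ι) A) (d : ι × ι →₀ ℕ),
      (z • p).coeff d = z • p.coeff d := by
    intro z p d
    rcases Int.units_eq_one_or z with rfl | rfl <;> simp
  rw [hcs]
  congr 1
  simp only [submatrix_apply, of_apply, pat]
  have h1 : (∏ p, (MvPolynomial.C (W (f (τ p)) (g p)) * MvPolynomial.X (f (τ p), g p) :
      MvPolynomial (ι × ι) A)) =
      MvPolynomial.C (∏ p, W (f (τ p)) (g p)) *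
        MvPolynomial.monomial (∑ p, Finsupp.single (f (τ p), g p) 1) 1 := by
    rw [Finset.prod_mul_distrib, map_prod, MvPolynomial.monomial_sum_one]
    rfl
  rw [h1, mul_left_comm, MvPolynomial.coeff_C_mul, MvPolynomial.coeff_mul_monomial']
  by_cases hτ : ∀ p, σ (f (τ p)) = g p
  · have hsum : ∑ p, Finsupp.single (f (τ p), g p) 1 +
        ∑ a with a ∉ Set.range f, Finsupp.single (a, σ a) 1 = (permMon σ : ι × ι →₀ ℕ) := by
      have e1 : ∑ p, (Finsupp.single (f (τ p), g p) 1 : ι × ι →₀ ℕ) =
          ∑ a with a ∈ Set.range f, Finsupp.single (a, σ a) 1 := by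
        have e0 : (Finset.univ.filter fun a => a ∈ Set.range f) = Finset.univ.map f := by
          ext a; simp
        rw [e0, Finset.sum_map, ← Equiv.sum_comp τ
          (fun p => (Finsupp.single (f p, σ (f p)) 1 : ι × ι →₀ ℕ))]
        exact Finset.sum_congr rfl fun p _ => by rw [hτ p]
      rw [e1, permMon, Finset.sum_filter_add_sum_filter_not]
    have hle : ∑ p, Finsupp.single (f (τ p), g p) 1 ≤ (permMon σ : ι × ι →₀ ℕ) := by
      rw [← hsum]; exact le_self_add
    rw [if_pos hle, ← hsum, add_tsub_cancel_left, mul_one]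
    have e2 : ∏ p, W (f (τ p)) (g p) = ∏ p, W (f p) (σ (f p)) := by
      rw [← Equiv.prod_comp τ (fun p => W (f p) (σ (f p)))]
      exact Finset.prod_congr rfl fun p _ => by rw [hτ p]
    have e3 : ∏ x, (if σ (f (τ x)) = g x then (1 : A) else 0) = 1 :=
      Finset.prod_eq_one fun p _ => if_pos (hτ p)
    rw [e2, e3, mul_one, mul_comm]
  · push Not at hτ
    obtain ⟨p, hp⟩ := hτ
    have hnle : ¬ (∑ p, Finsupp.single (f (τ p), g p) 1 ≤ (permMon σ : ι × ι →₀ ℕ)) := by
      intro hle
      have h2 := hle (f (τ p), g p)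
      rw [permMon_apply, if_neg hp, Finsupp.finsetSum_apply] at h2
      have h3 := Finset.single_le_sum (f := fun q => (Finsupp.single (f (τ q), g q) 1 :
        ι × ι →₀ ℕ) (f (τ p), g p)) (fun _ _ => Nat.zero_le _) (Finset.mem_univ p)
      simp only [Finsupp.single_eq_same] at h3
      omega
    rw [if_neg hnle, mul_zero]
    have e3 : ∏ x, (if σ (f (τ x)) = g x then (1 : A) else 0) = 0 :=
      Finset.prod_eq_zero (Finset.mem_univ p) (if_neg hp)
    rw [e3, mul_zero, mul_zero]

end Coeff

/-! ### Blocks of order three -/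

section Blocks

/-- The three even permutations. -/
def ev (a : Fin 3) : Perm (Fin 3) := (finRotate 3) ^ (a : ℕ)

/-- The three odd permutations. -/
def od (a : Fin 3) : Perm (Fin 3) := swap a (a + 1)

/-- The permutation in position `(a, x)` of the `3 × 3` matrix. -/
def tt (a x : Fin 3) : Perm (Fin 3) := if x = a then ev a else od a

/-- The positions used in the `3 × 3` matrix. -/
def ww (A : Type*) [CommRing A] (a x : Fin 3) : A := if x = a ∨ x = a + 1 then 1 else 0

theorem comb : ∀ S C : Finset (Fin 3), S.Nonempty → ¬ (S = Finset.univ ∧ C = Finset.univ) →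
    ∃ a, ∀ x, (x = a ∨ x = a + 1) → ∃ i, ¬ (i ∈ S ↔ tt a x i ∈ C) := by decide

theorem sign_ev : ∀ a, Perm.sign (ev a) = 1 := by decide
theorem sign_od : ∀ a, Perm.sign (od a) = -1 := by decide

variable {A : Type*} [CommRing A]

/-- The key identity: the product over the even permutations equals the product over the odd
ones, so that the `3 × 3` matrix is singular. -/
theorem det_block (V : Fin 3 → Fin 3 → A) :
    (Matrix.of fun a x : Fin 3 =>
      ww A a x * (((Perm.sign (tt a x) : ℤ) : A) * ∏ i, V i (tt a x i))).det = 0 := by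
  have e0 : ∀ i, ev 0 i = i := by decide
  have e10 : ev 1 0 = 1 := by decide
  have e11 : ev 1 1 = 2 := by decide
  have e12 : ev 1 2 = 0 := by decide
  have e20 : ev 2 0 = 2 := by decide
  have e21 : ev 2 1 = 0 := by decide
  have e22 : ev 2 2 = 1 := by decide
  have o00 : od 0 0 = 1 := by decide
  have o01 : od 0 1 = 0 := by decide
  have o02 : od 0 2 = 2 := by decide
  have o10 : od 1 0 = 0 := by decide
  have o11 : od 1 1 = 2 := by decide
  have o12 : od 1 2 = 1 := by decide
  have o20 : od 2 0 = 2 := by decide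
  have o21 : od 2 1 = 1 := by decide
  have o22 : od 2 2 = 0 := by decide
  rw [det_fin_three]
  simp only [of_apply, ww, tt, Fin.prod_univ_three]
  simp [sign_ev, sign_od, e0, e10, e11, e12, e20, e21, e22, o00, o01, o02, o10, o11, o12, o20,
    o21, o22]
  ring

variable {ι : Type*} [Fintype ι] [DecidableEq ι] {k : ℕ}

/-- The permutation acting on the `b`-th block by `c b` and fixing everything else. -/
def bp (e : Fin 3 × Fin k ↪ ι) (c : Fin k → Perm (Fin 3)) : Perm ι :=
  Perm.viaFintypeEmbedding (prodCongrLeft c) e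

omit [Fintype ι] in
theorem bp_apply (e : Fin 3 × Fin k ↪ ι) (c : Fin k → Perm (Fin 3)) (i : Fin 3) (b : Fin k) :
    bp e c (e (i, b)) = e (c b i, b) := by
  rw [bp, Perm.viaFintypeEmbedding_apply_image]
  rfl

omit [Fintype ι] in
theorem bp_out (e : Fin 3 × Fin k ↪ ι) (c : Fin k → Perm (Fin 3)) {a : ι}
    (ha : a ∉ Set.range e) : bp e c a = a := by
  rw [bp, Perm.viaFintypeEmbedding_apply_notMem_range _ _ ha]

omit [Fintype ι] in
theorem bp_congr (e : Fin 3 × Fin k ↪ ι) (c : Fin k → Perm (Fin 3)) (b : Fin k)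
    (π π' : Perm (Fin 3)) {a : ι} (ha : ∀ i, a ≠ e (i, b)) :
    bp e (Function.update c b π) a = bp e (Function.update c b π') a := by
  by_cases h : a ∈ Set.range e
  · obtain ⟨⟨i, b'⟩, rfl⟩ := h
    have hb : b' ≠ b := by
      rintro rfl
      exact ha i rfl
    rw [bp_apply, bp_apply, Function.update_of_ne hb, Function.update_of_ne hb]
  · rw [bp_out e _ h, bp_out e _ h]

variable {κ : Type*} [Fintype κ] [DecidableEq κ]

omit [Fintype ι] in
theorem pat_det_zero (f g : κ ↪ ι) (σ : Perm ι) (a : ι)
    (h : ¬ (a ∈ Set.range f ↔ σ a ∈ Set.range g)) : (pat A f g σ).det = 0 := by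
  by_cases ha : a ∈ Set.range f
  · have h2 : σ a ∉ Set.range g := fun h' => h (by simp [ha, h'])
    obtain ⟨p, rfl⟩ := ha
    refine det_eq_zero_of_row_eq_zero p fun q => ?_
    rw [pat, of_apply, if_neg]
    exact fun h' => h2 ⟨q, h'.symm⟩
  · have h2 : σ a ∈ Set.range g := by
      by_contra h'
      exact h (by simp [ha, h'])
    obtain ⟨q, hq⟩ := h2
    refine det_eq_zero_of_column_eq_zero q fun p => ?_
    rw [pat, of_apply, if_neg]
    intro h'
    rw [hq] at h'
    exact ha ⟨p, σ.injective h'⟩

/-- In a block covered by a minor, the coefficients are a product function. -/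
theorem full_block (W : Matrix ι ι A) (f g : κ ↪ ι) (Q : MvPolynomial (ι × ι) A)
    (e : Fin 3 × Fin k ↪ ι) (b : Fin k) (hf : ∀ i, ∃ p, f p = e (i, b))
    (c : Fin k → Perm (Fin 3)) :
    ∃ G : A, ∀ π : Perm (Fin 3),
      (Q * minor W f g).coeff (permMon (bp e (Function.update c b π))) =
        (((Perm.sign π : ℤ) : A) * ∏ i, W (e (i, b)) (e (π i, b))) * G := by
  classical
  choose h hh using hf
  have hinj : Function.Injective h := by
    intro i j hij
    have := hh i
    rw [hij, hh j] at this
    simpa using (e.injective this).symm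
  set h' : Fin 3 ↪ κ := ⟨h, hinj⟩ with hh'
  set B : Finset ι := Finset.univ.image fun i : Fin 3 => e (i, b) with hB
  have hBf : B ⊆ Finset.univ.map f := by
    intro a ha
    obtain ⟨i, -, rfl⟩ := Finset.mem_image.1 ha
    exact Finset.mem_map.2 ⟨h i, Finset.mem_univ _, hh i⟩
  set σ : Perm (Fin 3) → Perm ι := fun π => bp e (Function.update c b π) with hσ
  refine ⟨Q.coeff (∑ a with a ∉ Set.range f, Finsupp.single (a, σ 1 a) 1) *
    ((∏ a ∈ Finset.univ.map f \ B, W a (σ 1 a)) * (pat A f g (σ 1)).det), fun π => ?_⟩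
  rw [coeff_mul_minor]
  have h1 : (∑ a with a ∉ Set.range f, (Finsupp.single (a, σ π a) 1 : ι × ι →₀ ℕ)) =
      ∑ a with a ∉ Set.range f, Finsupp.single (a, σ 1 a) 1 := by
    refine Finset.sum_congr rfl fun a ha => ?_
    rw [Finset.mem_filter] at ha
    rw [hσ]
    simp only
    rw [bp_congr e c b π 1]
    rintro i rfl
    exact ha.2 ⟨h i, hh i⟩
  have h2 : ∏ p, W (f p) (σ π (f p)) =
      (∏ a ∈ Finset.univ.map f \ B, W a (σ 1 a)) * ∏ i, W (e (i, b)) (e (π i, b)) := by
    have e1 : ∏ p, W (f p) (σ π (f p)) = ∏ a ∈ Finset.univ.map f, W a (σ π a) := by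
      rw [Finset.prod_map]
    rw [e1, ← Finset.prod_sdiff hBf]
    refine congrArg₂ (· * ·) ?_ ?_
    · refine Finset.prod_congr rfl fun a ha => ?_
      rw [Finset.mem_sdiff] at ha
      rw [hσ]
      simp only
      rw [bp_congr e c b π 1]
      rintro i rfl
      exact ha.2 (Finset.mem_image.2 ⟨i, Finset.mem_univ _, rfl⟩)
    · rw [hB, Finset.prod_image]
      · refine Finset.prod_congr rfl fun i _ => ?_
        rw [hσ]
        simp only
        rw [bp_apply, Function.update_self]
      · intro i _ j _ hij
        simpa using e.injective hij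
  have h3 : (pat A f g (σ π)).det = ((Perm.sign π : ℤ) : A) * (pat A f g (σ 1)).det := by
    have e1 : pat A f g (σ π) = (pat A f g (σ 1)).submatrix (π.viaFintypeEmbedding h') id := by
      ext p q
      rw [submatrix_apply, pat, pat, of_apply, of_apply]
      have e2 : σ π (f p) = σ 1 (f (π.viaFintypeEmbedding h' p)) := by
        by_cases hp : p ∈ Set.range h'
        · obtain ⟨i, rfl⟩ := hp
          rw [Perm.viaFintypeEmbedding_apply_image]
          have e3 : ∀ j, f (h' j) = e (j, b) := hh
          rw [e3, e3, hσ]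
          simp only
          rw [bp_apply, bp_apply, Function.update_self, Function.update_self]
          rfl
        · rw [Perm.viaFintypeEmbedding_apply_notMem_range _ _ hp, hσ]
          simp only
          rw [bp_congr e c b π 1]
          intro i hi
          apply hp
          refine ⟨i, f.injective ?_⟩
          rw [hi]
          exact hh i
      rw [e2]
      rfl
    rw [e1, det_permute, Perm.viaFintypeEmbedding_sign]
  change Q.coeff (∑ a with a ∉ Set.range f, (Finsupp.single (a, σ π a) 1 : ι × ι →₀ ℕ)) *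
    ((∏ p, W (f p) (σ π (f p))) * (pat A f g (σ π)).det) = _
  rw [h1, h2, h3]
  ring

/-- Every block which is hit by the rows of a weighted minor gives a relation between the
coefficients of every polynomial multiple of the minor. -/
theorem kill [IsDomain A] (W : Matrix ι ι A) (f g : κ ↪ ι) (e : Fin 3 × Fin k ↪ ι) (b : Fin k)
    (hb : ∃ i p, f p = e (i, b)) :
    ∃ u : Fin 3 → A, u ≠ 0 ∧ ∀ (Q : MvPolynomial (ι × ι) A) (c : Fin k → Perm (Fin 3)) (x : Fin 3),
      ∑ a, u a * (ww A a x *
        (Q * minor W f g).coeff (permMon (bp e (Function.update c b (tt a x))))) = 0 := by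
  classical
  set S : Finset (Fin 3) := Finset.univ.filter fun i => e (i, b) ∈ Set.range f with hS
  set C : Finset (Fin 3) := Finset.univ.filter fun i => e (i, b) ∈ Set.range g with hC
  by_cases hfull : S = Finset.univ ∧ C = Finset.univ
  · have hf : ∀ i, ∃ p, f p = e (i, b) := by
      intro i
      have : i ∈ S := by rw [hfull.1]; exact Finset.mem_univ i
      rw [hS, Finset.mem_filter] at this
      exact this.2
    obtain ⟨u, hu0, hu⟩ := (exists_vecMul_eq_zero_iff (M := (Matrix.of fun a x : Fin 3 =>
      ww A a x * (((Perm.sign (tt a x) : ℤ) : A) *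
        ∏ i, W (e (i, b)) (e (tt a x i, b)))))).2 (det_block fun i j => W (e (i, b)) (e (j, b)))
    refine ⟨u, hu0, fun Q c x => ?_⟩
    obtain ⟨G, hG⟩ := full_block W f g Q e b hf c
    have h1 := congrFun hu x
    simp only [vecMul, dotProduct, of_apply, Pi.zero_apply] at h1
    calc _ = (∑ a, u a * (ww A a x * (((Perm.sign (tt a x) : ℤ) : A) *
        ∏ i, W (e (i, b)) (e (tt a x i, b))))) * G := by
          rw [Finset.sum_mul]
          refine Finset.sum_congr rfl fun a _ => ?_
          rw [hG]
          ring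
      _ = 0 := by rw [h1, zero_mul]
  · have hne : S.Nonempty := by
      obtain ⟨i, p, hp⟩ := hb
      exact ⟨i, by rw [hS, Finset.mem_filter]; exact ⟨Finset.mem_univ _, p, hp⟩⟩
    obtain ⟨a₀, ha₀⟩ := comb S C hne hfull
    refine ⟨Pi.single a₀ 1, ?_, fun Q c x => ?_⟩
    · intro h0
      have := congrFun h0 a₀
      simp at this
    · rw [Finset.sum_eq_single a₀]
      · rw [Pi.single_eq_same, one_mul]
        by_cases hx : x = a₀ ∨ x = a₀ + 1
        · obtain ⟨i, hi⟩ := ha₀ x hx
          rw [coeff_mul_minor, pat_det_zero f g _ (e (i, b)), mul_zero, mul_zero, mul_zero]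
          rw [bp_apply, Function.update_self]
          simpa [hS, hC] using hi
        · rw [ww, if_neg hx, zero_mul]
      · intro a _ ha
        rw [Pi.single_eq_of_ne ha, zero_mul]
      · simp

end Blocks

/-! ### Rank -/

section Rank

variable {L : Type*} [Field L] {k : ℕ}

/-- Relations in the blocks `b ∈ T` bound the dimension of the row space. -/
theorem row_mem_span (M : (Fin k → Fin 3) → (Fin k → Fin 3) → L) (T : Finset (Fin k))
    (u : Fin k → Fin 3 → L) (a : Fin k → Fin 3) (hu : ∀ b ∈ T, u b (a b) ≠ 0)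
    (hM : ∀ b ∈ T, ∀ p q, ∑ x, u b x * M (Function.update p b x) q = 0) (p : Fin k → Fin 3) :
    M p ∈ Submodule.span L (M '' {p | ∀ b ∈ T, p b ≠ a b}) := by
  classical
  induction hN : (T.filter fun b => p b = a b).card using Nat.strong_induction_on generalizing p
    with
  | _ N ih =>
    by_cases h0 : ∀ b ∈ T, p b ≠ a b
    · exact Submodule.subset_span ⟨p, h0, rfl⟩
    · push Not at h0
      obtain ⟨b, hbT, hb⟩ := h0
      have h1 : M p = ∑ x ∈ Finset.univ.erase (a b),
          (-(u b x / u b (a b))) • M (Function.update p b x) := by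
        ext q
        have h2 := hM b hbT p q
        rw [← Finset.add_sum_erase _ _ (Finset.mem_univ (a b))] at h2
        have h3 : Function.update p b (a b) = p := by rw [← hb]; exact Function.update_eq_self b p
        rw [h3] at h2
        have h4 := hu b hbT
        rw [Finset.sum_apply]
        simp only [Pi.smul_apply, smul_eq_mul]
        have h5 : ∑ x ∈ Finset.univ.erase (a b), -(u b x / u b (a b)) * M (Function.update p b x) q =
            -(u b (a b))⁻¹ * ∑ x ∈ Finset.univ.erase (a b), u b x * M (Function.update p b x) q := by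
          rw [Finset.mul_sum]
          exact Finset.sum_congr rfl fun x _ => by ring
        rw [h5]
        have h6 : ∑ x ∈ Finset.univ.erase (a b), u b x * M (Function.update p b x) q =
            - (u b (a b) * M p q) := by linear_combination h2
        rw [h6]
        field_simp
      rw [h1]
      refine Submodule.sum_mem _ fun x hx => Submodule.smul_mem _ _ ?_
      refine ih _ ?_ _ rfl
      rw [← hN]
      refine Finset.card_lt_card ?_
      rw [Finset.ssubset_iff_of_subset]
      · refine ⟨b, by simp [hbT, hb], ?_⟩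
        simp only [Finset.mem_filter, not_and]
        intro _
        rw [Function.update_self]
        exact (Finset.mem_erase.1 hx).1
      · intro b' hb'
        rw [Finset.mem_filter] at hb' ⊢
        refine ⟨hb'.1, ?_⟩
        by_cases hbb : b' = b
        · rw [hbb]; exact hb
        · have := hb'.2
          rwa [Function.update_of_ne hbb] at this

theorem card_rows (T : Finset (Fin k)) (a : Fin k → Fin 3) (t : ℕ) (ht : t ≤ T.card) :
    Fintype.card {p : Fin k → Fin 3 // ∀ b ∈ T, p b ≠ a b} ≤ 2 ^ t * 3 ^ (k - t) := by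
  classical
  have h0 : Fintype.card {p : Fin k → Fin 3 // ∀ b ∈ T, p b ≠ a b} =
      (Fintype.piFinset fun b => if b ∈ T then Finset.univ.erase (a b) else Finset.univ).card := by
    rw [Fintype.card_subtype]
    congr 1
    ext p
    simp only [Finset.mem_filter, Finset.mem_univ, true_and, Fintype.mem_piFinset]
    refine forall_congr' fun b => ?_
    split_ifs with hb
    · simp [hb]
    · simp [hb]
  have h1 : (Fintype.piFinset fun b =>
      if b ∈ T then Finset.univ.erase (a b) else (Finset.univ : Finset (Fin 3))).card =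
      2 ^ T.card * 3 ^ (k - T.card) := by
    rw [Fintype.card_piFinset]
    have : ∀ b, (if b ∈ T then Finset.univ.erase (a b) else Finset.univ : Finset (Fin 3)).card =
        if b ∈ T then 2 else 3 := by
      intro b
      split_ifs
      · rw [Finset.card_erase_of_mem (Finset.mem_univ _), Finset.card_univ, Fintype.card_fin]
      · rw [Finset.card_univ, Fintype.card_fin]
    rw [Finset.prod_congr rfl fun b _ => this b, Finset.prod_ite, Finset.prod_const,
      Finset.prod_const]
    congr 2
    · congr 1
      ext b; simp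
    · rw [Finset.filter_not, Finset.card_sdiff_of_subset (Finset.filter_subset _ _)]
      simp
  rw [h0, h1]
  have hk : T.card ≤ k := (Finset.card_le_univ _).trans (by simp)
  obtain ⟨d, hd⟩ := Nat.exists_eq_add_of_le ht
  have e1 : k - t = (k - T.card) + d := by omega
  rw [hd, e1, pow_add, pow_add]
  have : 2 ^ d ≤ 3 ^ d := Nat.pow_le_pow_left (by norm_num) _
  calc 2 ^ t * 2 ^ d * 3 ^ (k - (t + d)) ≤ 2 ^ t * 3 ^ d * 3 ^ (k - (t + d)) := by gcongr
    _ = 2 ^ t * (3 ^ (k - T.card) * 3 ^ d) := by rw [hd]; ring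
    _ = _ := by rw [hd]

/-- The main rank estimate. -/
theorem rank_bound {m : ℕ} (M : Fin m → Matrix (Fin k → Fin 3) (Fin k → Fin 3) L)
    (T : Fin m → Finset (Fin k)) (t : ℕ) (htk : t ≤ k) (hT : ∀ i, t ≤ (T i).card)
    (hM : ∀ i, ∀ b ∈ T i, ∃ u : Fin 3 → L, u ≠ 0 ∧
      ∀ p q, ∑ x, u x * M i (Function.update p b x) q = 0)
    (hdet : (∑ i, M i).det ≠ 0) : 3 ^ t ≤ m * 2 ^ t := by
  classical
  choose! u hu0 hu using hM
  have ha : ∀ i, ∀ b ∈ T i, ∃ a, u i b a ≠ 0 := by
    intro i b hb
    by_contra h
    push Not at h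
    exact hu0 i b hb (funext h)
  choose! a ha using ha
  set R : ∀ i : Fin m, {p : Fin k → Fin 3 // ∀ b ∈ T i, p b ≠ a i b} → (Fin k → Fin 3) → L :=
    fun i p => M i p.1 with hR
  set RR : (Σ i : Fin m, {p : Fin k → Fin 3 // ∀ b ∈ T i, p b ≠ a i b}) →
    (Fin k → Fin 3) → L := fun z => M z.1 z.2.1 with hRR
  have hrow : ∀ p, (∑ i, M i) p ∈ Submodule.span L (Set.range RR) := by
    intro p
    have : (∑ i, M i) p = ∑ i, M i p := by
      ext q; simp [Matrix.sum_apply]
    rw [this]
    refine Submodule.sum_mem _ fun i _ => ?_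
    refine Submodule.span_mono ?_ (row_mem_span (M i) (T i) (u i) (a i)
      (fun b hb => ha i b hb) (fun b hb => hu i b hb) p)
    rintro _ ⟨p', hp', rfl⟩
    exact ⟨⟨i, ⟨p', hp'⟩⟩, rfl⟩
  have htop : Submodule.span L (Set.range RR) = ⊤ := by
    rw [eq_top_iff]
    intro v _
    have hunit : IsUnit (∑ i, M i) := (Matrix.isUnit_iff_isUnit_det _).2 (isUnit_iff_ne_zero.2 hdet)
    have hv : v = (v ᵥ* (∑ i, M i)⁻¹) ᵥ* (∑ i, M i) := by
      rw [vecMul_vecMul, Matrix.nonsing_inv_mul _ (isUnit_iff_ne_zero.2 hdet), vecMul_one]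
    have hv2 : v = ∑ p, (v ᵥ* (∑ i, M i)⁻¹) p • (∑ i, M i) p := by
      conv_lhs => rw [hv]
      rw [Matrix.vecMul_eq_sum]
    rw [hv2]
    exact Submodule.sum_mem _ fun p _ => Submodule.smul_mem _ _ (hrow p)
  have h1 := finrank_range_le_card (R := L) RR
  rw [Set.finrank, htop, finrank_top, Module.finrank_fintype_fun_eq_card] at h1
  rw [Fintype.card_sigma] at h1
  have h2 : ∑ i, Fintype.card {p : Fin k → Fin 3 // ∀ b ∈ T i, p b ≠ a i b} ≤
      m * (2 ^ t * 3 ^ (k - t)) := by
    calc _ ≤ ∑ _i : Fin m, 2 ^ t * 3 ^ (k - t) :=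
          Finset.sum_le_sum fun i _ => card_rows (T i) (a i) t (hT i)
      _ = _ := by simp
  have h3 : 3 ^ k ≤ m * (2 ^ t * 3 ^ (k - t)) := by
    refine le_trans ?_ (h1.trans h2)
    simp
  have h4 : 3 ^ k = 3 ^ t * 3 ^ (k - t) := by
    rw [← pow_add]; congr 1; omega
  rw [h4, ← mul_assoc] at h3
  exact Nat.le_of_mul_le_mul_right h3 (pow_pos (by norm_num) _)

/-- The Kronecker power of the `3 × 3` matrix is nonsingular in characteristic different from
two. -/
theorem kron_det {K : Type*} [Field K] (h2 : (2 : K) ≠ 0) :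
    (Matrix.of fun p q : Fin k → Fin 3 => ∏ b, ww K (p b) (q b)).det ≠ 0 := by
  classical
  set N' : Fin 3 → Fin 3 → K := fun a x => if x = a + 1 then -(1/2) else 1 / 2 with hN'
  have hmul : ∀ a x : Fin 3, ∑ c, ww K a c * N' c x = if a = x then 1 else 0 := by
    intro a x
    fin_cases a <;> fin_cases x <;> simp [ww, hN', Fin.sum_univ_three] <;> ring_nf <;>
      simp [h2]
  have h : (Matrix.of fun p q : Fin k → Fin 3 => ∏ b, ww K (p b) (q b)) *
      (Matrix.of fun p q : Fin k → Fin 3 => ∏ b, N' (p b) (q b)) = 1 := by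
    ext p r
    rw [mul_apply, one_apply]
    simp only [of_apply]
    have h1 : ∑ q : Fin k → Fin 3, (∏ b, ww K (p b) (q b)) * ∏ b, N' (q b) (r b) =
        ∏ b, ∑ c, ww K (p b) c * N' c (r b) := by
      rw [Finset.prod_univ_sum]
      rw [Fintype.piFinset_univ]
      exact Finset.sum_congr rfl fun q _ => by rw [Finset.prod_mul_distrib]
    rw [h1]
    simp only [hmul]
    by_cases hpr : p = r
    · rw [if_pos hpr, hpr]
      simp
    · rw [if_neg hpr]
      obtain ⟨b, hb⟩ := Function.ne_iff.1 hpr
      exact Finset.prod_eq_zero (Finset.mem_univ b) (if_neg hb)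
  intro h0
  have := congrArg Matrix.det h
  rw [det_mul, h0, zero_mul, det_one] at this
  exact zero_ne_one this

end Rank

/-! ### The theorem -/

/-- The blocks of three consecutive indices. -/
def cells (n : ℕ) : Fin 3 × Fin (n / 3) ↪ Fin n where
  toFun x := ⟨3 * x.2 + x.1, by have := x.1.2; have := x.2.2; omega⟩
  inj' := by
    rintro ⟨i, b⟩ ⟨j, c⟩ h
    simp only [Fin.mk.injEq] at h
    have h1 := i.2
    have h2 := j.2
    ext <;> simp <;> omega

/-- A set of at least `r` rows meets at least `r / 3` blocks. -/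
theorem card_hit (n r : ℕ) (S : Finset (Fin n)) (hS : r ≤ S.card) :
    r / 3 ≤ (Finset.univ.filter fun b : Fin (n / 3) => ∃ i, cells n (i, b) ∈ S).card := by
  classical
  set T : Finset (Fin (n / 3)) := Finset.univ.filter fun b => ∃ i, cells n (i, b) ∈ S with hT
  have h1 : S ⊆ (((Finset.univ : Finset (Fin 3)) ×ˢ T).map (cells n)) ∪
      (Finset.univ.filter fun a : Fin n => 3 * (n / 3) ≤ (a : ℕ)) := by
    intro a ha
    by_cases h : 3 * (n / 3) ≤ (a : ℕ)
    · exact Finset.mem_union_right _ (by simp [h])
    · push Not at h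
      refine Finset.mem_union_left _ (Finset.mem_map.2
        ⟨(⟨a % 3, Nat.mod_lt _ (by norm_num)⟩, ⟨a / 3, by omega⟩), ?_, ?_⟩)
      · refine Finset.mem_product.2 ⟨Finset.mem_univ _, ?_⟩
        rw [hT, Finset.mem_filter]
        refine ⟨Finset.mem_univ _, ⟨a % 3, Nat.mod_lt _ (by norm_num)⟩, ?_⟩
        have h5 : cells n (⟨a % 3, Nat.mod_lt _ (by norm_num)⟩, ⟨a / 3, by omega⟩) = a := by
          apply Fin.ext
          change 3 * ((a : ℕ) / 3) + (a : ℕ) % 3 = a
          omega
        rw [h5]
        exact ha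
      · apply Fin.ext
        change 3 * ((a : ℕ) / 3) + (a : ℕ) % 3 = a
        omega
  have h2 : (Finset.univ.filter fun a : Fin n => 3 * (n / 3) ≤ (a : ℕ)).card ≤ 2 := by
    have h3 : (Finset.univ.filter fun a : Fin n => 3 * (n / 3) ≤ (a : ℕ)).card ≤
        (Finset.Ico (3 * (n / 3)) n).card := by
      refine Finset.card_le_card_of_injOn (fun a => (a : ℕ)) ?_ ?_
      · intro a ha
        simp only [Finset.coe_filter, Finset.mem_univ, true_and, Set.mem_ofPred_eq] at ha
        simp [ha]
      · intro a _ b _ hab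
        exact Fin.ext hab
    refine h3.trans ?_
    rw [Nat.card_Ico]
    omega
  have h4 := (Finset.card_le_card h1).trans (Finset.card_union_le _ _)
  rw [Finset.card_map, Finset.card_product, Finset.card_univ, Fintype.card_fin] at h4
  omega

theorem main {A K : Type*} [CommRing A] [IsDomain A] [Field K] (h2 : (2 : K) ≠ 0)
    (φ : A →+* K) (n m r : ℕ) (l : Fin m → ℕ) (s : ∀ i, Fin (l i) → ℕ)
    (W : ∀ i, Fin (l i) → Matrix (Fin n) (Fin n) A)
    (f g : ∀ i (j : Fin (l i)), Fin (s i j) ↪ Fin n)
    (hr : ∀ i, r ≤ (Finset.univ.filter fun a : Fin n => ∃ j p, f i j p = a).card)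
    (Q : Fin m → MvPolynomial (Fin n × Fin n) A)
    (P : MvPolynomial (Fin n × Fin n) A) (c : A) (hc : c ≠ 0)
    (h : MvPolynomial.C c * P = ∑ i, Q i * ∏ j, minor (W i j) (f i j) (g i j))
    (hP : ∀ σ : Perm (Fin n), φ (P.coeff (permMon σ)) = 1) :
    3 ^ (r / 3) ≤ m * 2 ^ (r / 3) := by
  classical
  rcases Nat.eq_zero_or_pos m with hm | hm
  · -- no terms: `c * P = 0`
    subst hm
    exfalso
    rw [Finset.univ_eq_empty, Finset.sum_empty] at h
    have h3 : (MvPolynomial.C c * P).coeff (permMon 1) = 0 := by rw [h]; simp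
    rw [MvPolynomial.coeff_C_mul] at h3
    have h4 := (mul_eq_zero.1 h3).resolve_left hc
    have := hP 1
    rw [h4, map_zero] at this
    exact zero_ne_one this
  set k := n / 3 with hk
  have htk : r / 3 ≤ k := by
    have h3 := (hr ⟨0, hm⟩).trans (Finset.card_le_univ _)
    rw [Fintype.card_fin] at h3
    omega
  set e := cells n with he
  set pp : (Fin k → Fin 3) → (Fin k → Fin 3) → (Fin n × Fin n →₀ ℕ) :=
    fun p q => permMon (bp e fun b => tt (p b) (q b)) with hpp
  set ent : MvPolynomial (Fin n × Fin n) A → Matrix (Fin k → Fin 3) (Fin k → Fin 3) A :=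
    fun F => Matrix.of fun p q => (∏ b, ww A (p b) (q b)) * F.coeff (pp p q) with hent
  set M : Fin m → Matrix (Fin k → Fin 3) (Fin k → Fin 3) A :=
    fun i => ent (Q i * ∏ j, minor (W i j) (f i j) (g i j)) with hM
  have hsum : ∑ i, M i = c • ent P := by
    ext p q
    rw [Matrix.sum_apply, Matrix.smul_apply, smul_eq_mul]
    simp only [hM, hent, of_apply]
    rw [← Finset.mul_sum, ← MvPolynomial.coeff_sum, ← h, MvPolynomial.coeff_C_mul]
    ring
  have hdet0 : (ent P).det ≠ 0 := by
    intro h0
    have h3 : φ (ent P).det = 0 := by rw [h0, map_zero]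
    rw [RingHom.map_det] at h3
    apply kron_det (k := k) h2
    rw [← h3]
    congr 1
    ext p q
    simp only [RingHom.mapMatrix_apply, map_apply, hent, of_apply, map_mul, map_prod]
    rw [hpp]
    simp only
    rw [hP, mul_one]
    refine Finset.prod_congr rfl fun b _ => ?_
    rw [ww, ww]
    split_ifs <;> simp
  have hdet : (∑ i, M i).det ≠ 0 := by
    rw [hsum, det_smul]
    exact mul_ne_zero (pow_ne_zero _ hc) hdet0
  refine rank_bound (L := FractionRing A) (fun i => (M i).map (algebraMap A (FractionRing A)))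
    (fun i => Finset.univ.filter fun b : Fin k =>
      ∃ x, e (x, b) ∈ Finset.univ.filter fun a : Fin n => ∃ j p, f i j p = a)
    (r / 3) htk (fun i => card_hit n r _ (hr i)) ?_ ?_
  · intro i b hb
    rw [Finset.mem_filter] at hb
    obtain ⟨-, x, hx⟩ := hb
    rw [Finset.mem_filter] at hx
    obtain ⟨-, j, p₀, hp₀⟩ := hx
    obtain ⟨u, hu0, hu⟩ := kill (W i j) (f i j) (g i j) e b ⟨x, p₀, hp₀⟩
    refine ⟨fun y => algebraMap A (FractionRing A) (u y), ?_, fun p q => ?_⟩
    · intro h0
      apply hu0
      ext y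
      have := congrFun h0 y
      exact (IsFractionRing.injective A (FractionRing A)) (by simpa using this)
    · have h3 := hu (Q i * ∏ j' ∈ Finset.univ.erase j, minor (W i j') (f i j') (g i j'))
        (fun b => tt (p b) (q b)) (q b)
      have h4 : (Q i * ∏ j' ∈ Finset.univ.erase j, minor (W i j') (f i j') (g i j')) *
          minor (W i j) (f i j) (g i j) = Q i * ∏ j', minor (W i j') (f i j') (g i j') := by
        rw [mul_assoc, Finset.prod_erase_mul _ _ (Finset.mem_univ j)]
      rw [h4] at h3
      have h5 : ∀ y, M i (Function.update p b y) q =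
          (∏ b' ∈ Finset.univ.erase b, ww A (p b') (q b')) * (ww A y (q b) *
            (Q i * ∏ j', minor (W i j') (f i j') (g i j')).coeff
              (permMon (bp e (Function.update (fun b => tt (p b) (q b)) b (tt y (q b)))))) := by
        intro y
        simp only [hM, hent, of_apply, hpp]
        have h6 : (fun b' => tt (Function.update p b y b') (q b')) =
            Function.update (fun b => tt (p b) (q b)) b (tt y (q b)) := by
          ext1 b'
          by_cases hb' : b' = b
          · subst hb'; simp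
          · rw [Function.update_of_ne hb', Function.update_of_ne hb']
        have h7 : ∏ b', ww A (Function.update p b y b') (q b') =
            (∏ b' ∈ Finset.univ.erase b, ww A (p b') (q b')) * ww A y (q b) := by
          rw [← Finset.prod_erase_mul _ _ (Finset.mem_univ b), Function.update_self]
          congr 1
          refine Finset.prod_congr rfl fun b' hb' => ?_
          rw [Function.update_of_ne (Finset.mem_erase.1 hb').1]
        rw [h6, h7]
        ring
      calc ∑ y, algebraMap A (FractionRing A) (u y) *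
            (M i).map (algebraMap A (FractionRing A)) (Function.update p b y) q
          = algebraMap A (FractionRing A) (∑ y, u y * M i (Function.update p b y) q) := by
            rw [map_sum]
            exact Finset.sum_congr rfl fun y _ => by rw [map_mul, map_apply]
        _ = algebraMap A (FractionRing A) ((∏ b' ∈ Finset.univ.erase b, ww A (p b') (q b')) *
              ∑ y, u y * (ww A y (q b) *
            (Q i * ∏ j', minor (W i j') (f i j') (g i j')).coeff
              (permMon (bp e (Function.update (fun b => tt (p b) (q b)) b (tt y (q b))))))) := by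
            congr 1
            rw [Finset.mul_sum]
            exact Finset.sum_congr rfl fun y _ => by rw [h5]; ring
        _ = 0 := by rw [h3, mul_zero, map_zero]
  · have h3 : ∑ i, (M i).map (algebraMap A (FractionRing A)) =
        (algebraMap A (FractionRing A)).mapMatrix (∑ i, M i) := by
      rw [map_sum]
      rfl
    rw [h3, ← RingHom.map_det]
    intro h0
    apply hdet
    exact (IsFractionRing.injective A (FractionRing A)) (by rw [h0, map_zero])

/-- **The permanent and ideals generated by products of weighted minors, all weights.**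
Let `A` be an integral domain and `φ : A → K` a ring homomorphism to a field of characteristic
different from two.  Let `P` be a polynomial over `A` in the variables `x_{a b}` (`a, b < n`) whose
coefficient at `∏ x_{a, σ a}` is mapped to `1` by `φ` for every permutation `σ` (for instance the
generic permanent), and suppose that some nonzero multiple `c * P`, `c ∈ A`, can be written as
`∑ i < m, Q_i * ∏ j, D_{ij}` with arbitrary polynomials `Q_i`, where each `D_{ij}` is a minor
(of any order) of a matrix `(w_{a b} x_{a b})` with arbitrary weights `w_{a b} ∈ A`, which may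
be different for different `(i, j)`, and where for each `i` at least `r` rows are used by the
minors `D_{ij}`.  Then `m` is at least `(3 / 2) ^ ⌊r / 3⌋`.

With `A = K`, `φ = id`, `c = 1`, `P` the permanent this bounds the number of terms of an exact
expression; with `A = K[t]`, `φ` the evaluation at `t = 0`, `c = t ^ q` it bounds the number of
terms of an approximate one. -/
theorem result {A K : Type} [CommRing A] [IsDomain A] [Field K] (h2 : (2 : K) ≠ 0)
    (φ : A →+* K) (n m r : ℕ) (l : Fin m → ℕ) (s : ∀ i, Fin (l i) → ℕ)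
    (W : ∀ i, Fin (l i) → Matrix (Fin n) (Fin n) A)
    (f g : ∀ i (j : Fin (l i)), Fin (s i j) ↪ Fin n)
    (hr : ∀ i, r ≤ (Finset.univ.filter fun a : Fin n => ∃ j p, f i j p = a).card)
    (Q : Fin m → MvPolynomial (Fin n × Fin n) A)
    (P : MvPolynomial (Fin n × Fin n) A) (c : A) (hc : c ≠ 0)
    (h : MvPolynomial.C c * P = ∑ i, Q i * ∏ j,
      ((Matrix.of fun a b : Fin n =>
        (MvPolynomial.C (W i j a b) * MvPolynomial.X (a, b) :
          MvPolynomial (Fin n × Fin n) A)).submatrix (f i j) (g i j)).det)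
    (hP : ∀ σ : Perm (Fin n), φ (P.coeff (∑ a, Finsupp.single (a, σ a) 1)) = 1) :
    3 ^ (r / 3) ≤ m * 2 ^ (r / 3) :=
  main h2 φ n m r l s W f g hr Q P c hc h hP

end Pool.Agent.V7H44.Old.AnyWeightsH44
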